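import Mathlib
import Pool.Agent.Lib.MP_8be6f6_co.AC.ORB
import Pool.Agent.Lib.MP_8be6f6_co.AC.DIC
import Pool.Agent.Lib.MP_8be6f6_co.AC.CLA
import Pool.Agent.Lib.MP_8be6f6_co.AC.INT
import Pool.Agent.Lib.MP_8be6f6_co.AC.CLB
import Pool.Agent.Lib.MP_8be6f6_co.AC.SHF
import Pool.Agent.Lib.MP_8be6f6_co.AC.SHE
import Pool.Agent.Lib.MP_8be6f6_co.AC.BIA
import Pool.Agent.Lib.MP_8be6f6_co.AC.ONE
import Pool.Agent.Lib.MP_8be6f6_co.AC.ASA
import Pool.Agent.Lib.MP_8be6f6_co.AC.ASB
import Pool.Agent.Lib.MP_8be6f6_co.AC.SPC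
import Pool.Agent.Lib.MP_8be6f6_co.AC.FIN

/-!
# R(3,k): quasirandom Cayley graphs on finite abelian groups

Shearer's bound `R(3,k) ≤ (1 + o(1)) k² / log k` is not sharp for Cayley graphs on finite abelian groups
without dense spots: for them the constant is at most `e^(-y) + y / 2 < 1`, where `0 < y ≤ log 2` is the range of
densities.  For Cayley graphs whose non-trivial eigenvalues are at most `k^σ`, `1/2 < σ < 1`, it is at most
`e^(σ - 1) + (1 - σ) / 2`.
-/

set_option autoImplicit false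

namespace Pool.Agent.Results.MP_8be6f6_co.AbelianCayley

open Finset Classical

universe u

/-- The number of neighbours of `0`. -/
noncomputable def deg {Γ : Type u} [AddCommGroup Γ] [Fintype Γ] (G : SimpleGraph Γ) : ℕ :=
  (univ.filter fun z => G.Adj 0 z).card

/-- The number of ordered pairs of adjacent elements of `X`. -/
noncomputable def pairs {Γ : Type u} (G : SimpleGraph Γ) (X : Finset Γ) : ℕ :=
  ((X ×ˢ X).filter fun p => G.Adj p.1 p.2).card

/-- `G` is a triangle-free Cayley graph on the abelian group `Γ` (its adjacency is invariant under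
translations) without an independent set of `k` vertices. -/
structure CayleyRamsey {Γ : Type u} [AddCommGroup Γ] (k : ℕ) (G : SimpleGraph Γ) : Prop where
  inv : ∀ g x z : Γ, G.Adj (g + x) (g + z) ↔ G.Adj x z
  tri : G.CliqueFree 3
  ind : ∀ I : Finset Γ, I.card = k → ¬ G.IsIndepSet (I : Set Γ)

open Pool.Agent.Lib.MP8be6f6.AC

theorem CayleyRamsey.tf {Γ : Type u} [AddCommGroup Γ] {k : ℕ} {G : SimpleGraph Γ}
    (h : CayleyRamsey k G) : TF G := by
  intro x y z hxy hyz hxz
  exact h.tri {x, y, z} (SimpleGraph.is3Clique_triple_iff.2 ⟨hxy, hxz, hyz⟩)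

theorem CayleyRamsey.lt {Γ : Type u} [AddCommGroup Γ] {k : ℕ} {G : SimpleGraph Γ}
    (h : CayleyRamsey k G) (I : Finset Γ) (hI : Ind G I) : I.card < k := by
  by_contra hk
  push Not at hk
  obtain ⟨J, hJ, hJk⟩ := Finset.exists_subset_card_eq hk
  refine h.ind J hJk ?_
  intro x hx z hz _
  exact hI x (hJ (by exact_mod_cast hx)) z (hJ (by exact_mod_cast hz))

theorem main : Main.{u} :=
  specFIN specORB specDIC (specCLA specORB) (specCLB specORB specINT) (specSHE specSHF)
    (specONE (specSHE specSHF) specBIA) specASA specASB specSPC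

theorem exp_bound {u t : ℝ} (hu : 0 ≤ u) (ht : 0 ≤ t) (ht2 : t ≤ 1 / 2) :
    Real.exp (-(u - t)) ≤ Real.exp (-u) + 2 * t := by
  have h1 : Real.exp t ≤ 1 + 2 * t := by
    have h2 := Real.one_sub_le_exp_neg t
    have h3 : Real.exp t * Real.exp (-t) = 1 := by
      rw [← Real.exp_add, add_neg_cancel, Real.exp_zero]
    have h4 := Real.exp_pos t
    have h5 : Real.exp t * (1 - t) ≤ 1 :=
      (mul_le_mul_of_nonneg_left h2 h4.le).trans (le_of_eq h3)
    nlinarith
  have h6 : Real.exp (-u) ≤ 1 := by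
    rw [← Real.exp_zero]
    exact Real.exp_le_exp.2 (by linarith)
  have h7 : Real.exp (-(u - t)) = Real.exp (-u) * Real.exp t := by
    rw [← Real.exp_add]
    congr 1
    ring
  have h8 := Real.exp_pos (-u)
  rw [h7]
  have h9 : Real.exp (-u) * Real.exp t ≤ Real.exp (-u) * (1 + 2 * t) :=
    mul_le_mul_of_nonneg_left h1 h8.le
  nlinarith

/-- (1) Let `0 < y ≤ log 2`, `0 ≤ δ`, `0 < η` and `k` large.  A triangle-free Cayley graph on a finite
abelian group with `N` elements, without independent sets of `k` vertices, in which every set `X` with at least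
`N / k^y` elements has at most `(1 + δ) d |X|² / N` ordered adjacent pairs (`d` the degree) has
`N ≤ ((1 + δ) (e^(-y) + y / 2) + η) k² / log k`.
(2) Let `1/2 < σ < 1`, `0 < η` and `k` large.  If all non-trivial eigenvalues of the adjacency matrix are at most
`k^σ`, then `N ≤ (e^(σ - 1) + (1 - σ) / 2 + η) k² / log k`. -/
theorem result :
    (∀ y δ η : ℝ, 0 < y → y ≤ Real.log 2 → 0 ≤ δ → 0 < η → ∃ k₀ : ℕ, ∀ k : ℕ, k₀ ≤ k →
      ∀ (Γ : Type u) [AddCommGroup Γ] [Fintype Γ] (G : SimpleGraph Γ), CayleyRamsey k G →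
        (∀ X : Finset Γ, (Fintype.card Γ : ℝ) / (k : ℝ) ^ y ≤ X.card →
          (pairs G X : ℝ) ≤ (1 + δ) * deg G * (X.card : ℝ) ^ 2 / Fintype.card Γ) →
        (Fintype.card Γ : ℝ) ≤
          ((1 + δ) * (Real.exp (-y) + y / 2) + η) * ((k : ℝ) ^ 2 / Real.log k)) ∧
    (∀ σ η : ℝ, 1 / 2 < σ → σ < 1 → 0 < η → ∃ k₀ : ℕ, ∀ k : ℕ, k₀ ≤ k →
      ∀ (Γ : Type u) [AddCommGroup Γ] [Fintype Γ] (G : SimpleGraph Γ), CayleyRamsey k G →
        (∀ f : Γ → ℝ, ∑ x, f x = 0 →
          ∑ x, ∑ z ∈ univ.filter (fun z => G.Adj x z), f x * f z ≤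
            (k : ℝ) ^ σ * ∑ x, f x ^ 2) →
        (Fintype.card Γ : ℝ) ≤
          (Real.exp (σ - 1) + (1 - σ) / 2 + η) * ((k : ℝ) ^ 2 / Real.log k)) := by
  constructor
  · intro y δ η hy hy2 hδ hη
    obtain ⟨k₀, h⟩ := (main y η hy hy2 hη).1 δ hδ
    refine ⟨max k₀ 1, fun k hk Γ _ _ G hG hX => ?_⟩
    have hk0 : k₀ ≤ k := le_trans (le_max_left _ _) hk
    have hk1 : 1 ≤ k := le_trans (le_max_right _ _) hk
    have hkr : (0 : ℝ) < k := by
      have : 0 < k := by omega
      exact_mod_cast this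
    refine h k hk0 Γ G hG.inv hG.tf hG.lt fun X h2 => ?_
    refine hX X ?_
    rw [div_le_iff₀ (Real.rpow_pos_of_pos hkr y), mul_comm]
    exact h2
  · intro σ η hσ hσ1 hη
    -- `y = 1 - σ - t`
    set t : ℝ := min (η / 3) ((1 - σ) / 2) with ht
    have ht0 : 0 < t := lt_min (by linarith) (by linarith)
    have ht1 : t ≤ η / 3 := min_le_left _ _
    have ht2 : t ≤ (1 - σ) / 2 := min_le_right _ _
    have hlog : (0.6931471803 : ℝ) < Real.log 2 := Real.log_two_gt_d9
    obtain ⟨k₀, h⟩ := (main (1 - σ - t) t (by linarith) (by linarith) ht0).2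
    refine ⟨max k₀ 1, fun k hk Γ _ _ G hG hX => ?_⟩
    have hk0 : k₀ ≤ k := le_trans (le_max_left _ _) hk
    have hk1 : 1 ≤ k := le_trans (le_max_right _ _) hk
    have hkr : (1 : ℝ) ≤ k := by exact_mod_cast hk1
    have h2 := h k hk0 Γ G hG.inv hG.tf hG.lt (by
      intro f hf
      have h3 : (1 : ℝ) - (1 - σ - t) - t = σ := by ring
      rw [h3]
      exact hX f hf)
    refine h2.trans ?_
    have h4 : 0 ≤ (k : ℝ) ^ 2 / Real.log k := by
      have := Real.log_nonneg hkr
      positivity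
    apply mul_le_mul_of_nonneg_right _ h4
    have h5 := exp_bound (u := 1 - σ) (t := t) (by linarith) ht0.le (by linarith)
    have h6 : -(1 - σ) = σ - 1 := by ring
    rw [h6] at h5
    linarith

end Pool.Agent.Results.MP_8be6f6_co.AbelianCayley
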